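import Pool.Agent.C44.Exact
import Pool.Agent.C44.Count

/-!
# The conjectured density `9/14` for 4-graphs with a 3-colourable pair graph

Let the pairs of an `n`-set be coloured with three colours. The number `h₀` of edges of a 4-graph
none of whose three partitions into two pairs is monochromatic, and the number `h₁` of edges with
exactly one monochromatic partition, satisfy `h₀ + (7/16) h₁ ≤ (9/14) n⁴ / 24`.
-/

open Finset in
theorem Pool.Agent.Results.MP_70f273_co.ThreeColourable.result (n : ℕ)
    (H : Finset (Finset (Fin n))) (hH : ∀ e ∈ H, e.card = 4) (χ : Finset (Fin n) → Fin 3) :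
    7 * (16 * #{e ∈ H | #{P ∈ e.powersetCard 2 | χ P = χ (e \ P)} = 0} +
      7 * #{e ∈ H | #{P ∈ e.powersetCard 2 | χ P = χ (e \ P)} = 2}) ≤ 3 * n ^ 4 := by
  have h1 := Pool.Agent.C44.count χ 16 7 H hH
  have h2 := Pool.Agent.C44.exact_bound (fun x y : Fin n => χ {x, y})
    (fun x y => by rw [Finset.pair_comm])
  rw [Fintype.card_fin] at h2
  have h3 : ∑ e ∈ H, Pool.Agent.C44.wgt χ 16 7 e =
      16 * #{e ∈ H | #{P ∈ e.powersetCard 2 | χ P = χ (e \ P)} = 0} +
      7 * #{e ∈ H | #{P ∈ e.powersetCard 2 | χ P = χ (e \ P)} = 2} := by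
    rw [Finset.card_filter, Finset.card_filter, Finset.mul_sum, Finset.mul_sum,
      ← Finset.sum_add_distrib]
    refine Finset.sum_congr rfl fun e _ => ?_
    unfold Pool.Agent.C44.wgt Pool.Agent.C44.monoP
    split_ifs with a b <;> first | rfl | omega
  rw [h3] at h1
  omega
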